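import Mathlib

/-!
Polynomial enumerations of the lattice points of a planar sector: for all but countably many real
`α > 0` no polynomial, of any degree, enumerates `P_α`.
-/

set_option autoImplicit false

namespace Pool.Agent.Results.MP_211e2c_nt.CountablyManySectors

open MvPolynomial

/-- The lattice points of the closed sector `0 ≤ y ≤ α x`. -/
def P (α : ℝ) : Set (ℤ × ℤ) := {p | 0 ≤ p.1 ∧ 0 ≤ p.2 ∧ (p.2 : ℝ) ≤ α * (p.1 : ℝ)}

/-- The value of a real polynomial in two variables at an integer point. -/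
noncomputable def val (f : MvPolynomial (Fin 2) ℝ) (p : ℤ × ℤ) : ℝ :=
  eval ![(p.1 : ℝ), (p.2 : ℝ)] f

/-- `f` enumerates `P α`: its restriction to `P α` is a bijection onto `{0, 1, 2, …}`. -/
def Enumerates (f : MvPolynomial (Fin 2) ℝ) (α : ℝ) : Prop :=
  Set.BijOn (val f) (P α) (Set.range (fun n : ℕ => (n : ℝ)))

lemma P_mono {α β : ℝ} (h : α ≤ β) : P α ⊆ P β := by
  rintro ⟨x, y⟩ ⟨h1, h2, h3⟩
  refine ⟨h1, h2, h3.trans ?_⟩
  have : (0 : ℝ) ≤ (x : ℝ) := by exact_mod_cast h1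
  exact mul_le_mul_of_nonneg_right h this

lemma not_lt_of_enum {f : MvPolynomial (Fin 2) ℝ} {α β : ℝ} (ha : 0 < α)
    (h1 : Enumerates f α) (h2 : Enumerates f β) : ¬ α < β := by
  intro hab
  obtain ⟨x, hx⟩ := exists_nat_gt (1 / (β - α))
  have hd : 0 < β - α := by linarith
  have hx0 : (0 : ℝ) < (x : ℝ) := lt_trans (by positivity) hx
  have hx1 : 1 < (β - α) * x := by
    have := (div_lt_iff₀ hd).1 hx
    linarith
  have hb : 0 < β := by linarith
  set y : ℤ := ⌊β * (x : ℝ)⌋ with hy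
  have hy1 : (y : ℝ) ≤ β * x := Int.floor_le _
  have hy2 : β * x < (y : ℝ) + 1 := Int.lt_floor_add_one _
  have hy0 : 0 ≤ y := Int.floor_nonneg.2 (by positivity)
  have hmem : ((x : ℤ), y) ∈ P β := ⟨by positivity, hy0, by simpa using hy1⟩
  have hnot : ((x : ℤ), y) ∉ P α := by
    rintro ⟨-, -, h3⟩
    simp only [Int.cast_natCast] at h3
    nlinarith
  obtain ⟨p, hp, hpe⟩ := h1.surjOn (h2.mapsTo hmem)
  have := h2.injOn (P_mono hab.le hp) hmem hpe
  exact hnot (this ▸ hp)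

lemma unique_sector {f : MvPolynomial (Fin 2) ℝ} {α β : ℝ} (ha : 0 < α) (hb : 0 < β)
    (h1 : Enumerates f α) (h2 : Enumerates f β) : α = β :=
  le_antisymm (not_lt.1 (not_lt_of_enum hb h2 h1)) (not_lt.1 (not_lt_of_enum ha h1 h2))

/-- The grid used for interpolation. -/
noncomputable def grid (d N : ℕ) : Fin 2 → Finset ℝ :=
  ![(Finset.univ : Finset (Fin (d + 1))).image (fun i : Fin (d + 1) => ((N + (i : ℕ) : ℕ) : ℝ)),
    (Finset.univ : Finset (Fin (d + 1))).image (fun j : Fin (d + 1) => (((j : ℕ) : ℕ) : ℝ))]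

lemma grid_card (d N : ℕ) (i : Fin 2) : (grid d N i).card = d + 1 := by
  fin_cases i
  · change ((Finset.univ : Finset (Fin (d + 1))).image
      (fun i : Fin (d + 1) => ((N + (i : ℕ) : ℕ) : ℝ))).card = d + 1
    rw [Finset.card_image_of_injective]
    · simp
    · intro a b hab
      have h1 : ((N + (a : ℕ) : ℕ) : ℝ) = ((N + (b : ℕ) : ℕ) : ℝ) := hab
      have : N + (a : ℕ) = N + (b : ℕ) := by exact_mod_cast h1
      exact Fin.ext (by omega)
  · change ((Finset.univ : Finset (Fin (d + 1))).image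
      (fun j : Fin (d + 1) => (((j : ℕ) : ℕ) : ℝ))).card = d + 1
    rw [Finset.card_image_of_injective]
    · simp
    · intro a b hab
      have h1 : (((a : ℕ) : ℕ) : ℝ) = (((b : ℕ) : ℕ) : ℝ) := hab
      have : (a : ℕ) = (b : ℕ) := by exact_mod_cast h1
      exact Fin.ext this

lemma poly_ext (d N : ℕ) (f g : MvPolynomial (Fin 2) ℝ)
    (hf : ∀ i, f.degreeOf i ≤ d) (hg : ∀ i, g.degreeOf i ≤ d)
    (h : ∀ i j : Fin (d + 1), val f (((N + (i : ℕ) : ℕ) : ℤ), ((j : ℕ) : ℤ)) =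
      val g (((N + (i : ℕ) : ℕ) : ℤ), ((j : ℕ) : ℤ))) : f = g := by
  rw [← sub_eq_zero]
  apply eq_zero_of_eval_zero_at_prod_finset _ (grid d N)
  · intro i
    rw [grid_card d N i]
    have := degreeOf_sub_le i f g
    have h1 := hf i
    have h2 := hg i
    have : max (degreeOf i f) (degreeOf i g) ≤ d := max_le h1 h2
    omega
  · intro x hx
    have h0 : x 0 ∈ (Finset.univ : Finset (Fin (d + 1))).image
      (fun i : Fin (d + 1) => ((N + (i : ℕ) : ℕ) : ℝ)) := hx 0
    have h1 : x 1 ∈ (Finset.univ : Finset (Fin (d + 1))).image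
      (fun j : Fin (d + 1) => (((j : ℕ) : ℕ) : ℝ)) := hx 1
    rw [Finset.mem_image] at h0 h1
    obtain ⟨i, -, hi⟩ := h0
    obtain ⟨j, -, hj⟩ := h1
    have hxe : x = ![(((N + (i : ℕ) : ℕ) : ℤ) : ℝ), (((j : ℕ) : ℤ) : ℝ)] := by
      funext k
      fin_cases k
      · simp [← hi]
      · simp [← hj]
    have := h i j
    simp only [val] at this
    rw [hxe, map_sub, this, sub_self]

/-- The set of all `α > 0` for which some real polynomial, of any degree, enumerates `P α` is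
countable; moreover a given polynomial enumerates `P α` for at most one `α > 0`. -/
theorem result :
    {α : ℝ | 0 < α ∧ ∃ f : MvPolynomial (Fin 2) ℝ, Enumerates f α}.Countable ∧
      ∀ (f : MvPolynomial (Fin 2) ℝ) (α β : ℝ), 0 < α → 0 < β →
        Enumerates f α → Enumerates f β → α = β := by
  refine ⟨?_, fun f α β => unique_sector⟩
  let E : ℕ → ℕ → Set ℝ := fun d N => {α : ℝ | 0 < α ∧ (d : ℝ) ≤ α * N ∧
    ∃ f : MvPolynomial (Fin 2) ℝ, (∀ i, f.degreeOf i ≤ d) ∧ Enumerates f α}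
  have hsub : {α : ℝ | 0 < α ∧ ∃ f : MvPolynomial (Fin 2) ℝ, Enumerates f α} ⊆
      ⋃ d, ⋃ N, E d N := by
    rintro α ⟨ha, f, hf⟩
    obtain ⟨N, hN⟩ := exists_nat_gt ((max (f.degreeOf 0) (f.degreeOf 1) : ℕ) / α)
    refine Set.mem_iUnion.2 ⟨max (f.degreeOf 0) (f.degreeOf 1), Set.mem_iUnion.2 ⟨N, ha, ?_, f,
      ?_, hf⟩⟩
    · have := (div_lt_iff₀ ha).1 hN
      linarith
    · intro i
      fin_cases i
      · exact le_max_left _ _
      · exact le_max_right _ _
  refine Set.Countable.mono hsub (Set.countable_iUnion fun d => Set.countable_iUnion fun N => ?_)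
  -- on `E d N` the grid values determine `α`
  have key : ∀ α : E d N, ∃ (f : MvPolynomial (Fin 2) ℝ) (v : Fin (d + 1) → Fin (d + 1) → ℕ),
      (∀ i, f.degreeOf i ≤ d) ∧ Enumerates f α ∧
      ∀ i j : Fin (d + 1), val f (((N + (i : ℕ) : ℕ) : ℤ), ((j : ℕ) : ℤ)) = (v i j : ℝ) := by
    rintro ⟨α, ha, hd, f, hdeg, hf⟩
    have hv : ∀ i j : Fin (d + 1), ∃ n : ℕ,
        val f (((N + (i : ℕ) : ℕ) : ℤ), ((j : ℕ) : ℤ)) = (n : ℝ) := by
      intro i j
      have hm : ((((N + (i : ℕ) : ℕ) : ℤ), ((j : ℕ) : ℤ)) : ℤ × ℤ) ∈ P α := by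
        refine ⟨by positivity, by positivity, ?_⟩
        have h1 : ((j : ℕ) : ℝ) ≤ d := by
          have := j.2
          exact_mod_cast (by omega : (j : ℕ) ≤ d)
        have h2 : (0 : ℝ) ≤ ((i : ℕ) : ℝ) := by positivity
        have h3 : 0 ≤ α * ((i : ℕ) : ℝ) := by positivity
        push_cast
        linarith
      obtain ⟨n, hn⟩ := hf.mapsTo hm
      exact ⟨n, hn.symm⟩
    choose v hv using hv
    exact ⟨f, v, hdeg, hf, hv⟩
  choose F V hF1 hF2 hF3 using key
  have hinj : Function.Injective V := by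
    intro a b hab
    have hfe : F a = F b := by
      apply poly_ext d N _ _ (hF1 a) (hF1 b)
      intro i j
      rw [hF3 a, hF3 b, hab]
    apply Subtype.ext
    have h1 := hF2 a
    have h2 := hF2 b
    rw [← hfe] at h2
    exact unique_sector a.2.1 b.2.1 h1 h2
  exact Set.countable_coe_iff.1 hinj.countable

end Pool.Agent.Results.MP_211e2c_nt.CountablyManySectors
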